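import Mathlib
import Pool.Agent.Lib.MP_a28f5d_nt.Defs
import Pool.Agent.Lib.MP_a28f5d_nt.Final
import Pool.Agent.Lib.MP_a28f5d_nt.Count

namespace Pool.Agent.Results.MP_a28f5d_nt.ThreeFour

open Pool.Agent.Lib.MP_a28f5d_nt

lemma eventually_ne : ∃ N : ℕ, ∀ n ≥ N, f 3 4 (n + 1) ≠ f 3 4 n := by
  obtain ⟨J0, hJ0, hJ⟩ := J_ne
  obtain ⟨N1, hN1⟩ := exists_nat_gt (96 * (((7600 * J0 : ℕ) : ℝ) + 2) * 4 ^ (7600 * J0))
  refine ⟨max 200 N1, ?_⟩
  intro n hn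
  have hn200 : 200 ≤ n := le_trans (le_max_left _ _) hn
  have hnN : (N1 : ℝ) ≤ n := by exact_mod_cast le_trans (le_max_right _ _) hn
  obtain ⟨τ, hτ, hτ1, hM, hmu⟩ := exists_saddle hn200
  have h3n : n + 1 < 3 ^ (n + 5) := by
    have h1 : n + 1 < 3 ^ (n + 1) := Nat.lt_pow_self (by norm_num)
    exact lt_of_lt_of_le h1 (Nat.pow_le_pow_right (by norm_num) (by omega))
  rw [f_eq_cnt h3n, f_eq_cnt (lt_trans (Nat.lt_succ_self n) h3n)]
  apply cnt_ne_of_integral_ne (τ := τ)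
  -- find `j`
  set B : ℝ := 4 ^ 7600 with hB
  have hB1 : 1 < B := by
    rw [hB]; exact one_lt_pow₀ (by norm_num) (by norm_num)
  have hBpow : ∀ j : ℕ, (4:ℝ) ^ (7600 * j) = B ^ j := fun j => by rw [hB, ← pow_mul]
  clear_value B
  have h1τ : 1 ≤ 1 / τ := by rw [le_div_iff₀ hτ]; linarith
  obtain ⟨j, hj1, hj2⟩ := exists_nat_pow_near h1τ hB1
  rw [← hBpow] at hj1 hj2
  have g1 : τ * 4 ^ (7600 * j) ≤ 1 := by
    rw [le_div_iff₀ hτ] at hj1
    linarith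
  have g2 : 1 ≤ τ * 4 ^ (7600 * (j + 1)) := by
    rw [div_lt_iff₀ hτ] at hj2
    linarith
  have hjJ : J0 ≤ j := by
    by_contra hcon
    push Not at hcon
    have g3 : 1 ≤ τ * 4 ^ (7600 * J0) := by
      refine g2.trans ?_
      apply mul_le_mul_of_nonneg_left _ hτ.le
      rw [hBpow, hBpow]
      exact pow_le_pow_right₀ hB1.le (by omega)
    have g4 := mu4_le hτ (7600 * J0) g3 (n + 5)
    rw [← hmu] at g4
    have g5 : 96 * (((7600 * J0 : ℕ) : ℝ) + 2) / τ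
        ≤ 96 * (((7600 * J0 : ℕ) : ℝ) + 2) * 4 ^ (7600 * J0) := by
      rw [div_le_iff₀ hτ, mul_assoc]
      have h96 : 0 ≤ 96 * (((7600 * J0 : ℕ) : ℝ) + 2) := by positivity
      have : 1 ≤ 4 ^ (7600 * J0) * τ := by rw [mul_comm]; exact g3
      exact le_mul_of_one_le_right h96 this
    linarith
  exact hJ j hjJ τ (n + 5) n hτ g2 g1 hM hmu

theorem result :
    (∃ N : ℕ, ∀ n ≥ N, f 3 4 (n + 1) ≠ f 3 4 n) ∧
      ¬ (∀ p q : ℕ, p.Coprime q → 2 < p → p < q → {n : ℕ | 0 < n ∧ f p q (n + 1) = f p q n}.Infinite) := by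
  refine ⟨eventually_ne, ?_⟩
  intro h
  obtain ⟨N, hN⟩ := eventually_ne
  have h1 := h 3 4 (by norm_num) (by norm_num) (by norm_num)
  apply h1
  apply Set.Finite.subset (Set.finite_Iio N)
  rintro n ⟨_, hn⟩
  by_contra hcon
  exact hN n (by simpa using hcon) hn

end Pool.Agent.Results.MP_a28f5d_nt.ThreeFour
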